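import Pool.Agent.H41.CO.Defs

set_option autoImplicit false

/-!
# Choosing an arc of each cycle (task CO-SEL of helper41)
-/

namespace Pool.Agent.H43.CO

open Finset

/-- Hall's theorem with capacities -/
theorem cap (V L : Type) [Fintype V] [DecidableEq V] [Fintype L] (q n : ℕ) (hq : 1 ≤ q)
    (c : L → Fin q → V) (hdeg : ∀ v, {p : L × Fin q | c p.1 p.2 = v}.ncard ≤ n) :
    ∃ β : L → Fin q, ∀ v, {l | c l (β l) = v}.ncard ≤ n / q + 1 := by
  classical
  set C : ℕ := n / q + 1 with hC
  have hCq : n ≤ C * q := by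
    have h1 := Nat.div_add_mod n q
    have h2 := Nat.mod_lt n hq
    rw [hC, add_mul, one_mul, mul_comm]
    omega
  set t : L → Finset (V × Fin C) := fun l => (univ.image (c l)) ×ˢ univ with ht
  have hall : ∀ S : Finset L, S.card ≤ (S.biUnion t).card := by
    intro S
    set N : Finset V := S.biUnion fun l => univ.image (c l) with hN
    have e1 : S.biUnion t = N ×ˢ (univ : Finset (Fin C)) := by
      ext ⟨v, j⟩
      simp [ht, hN]
    rw [e1, card_product, card_univ, Fintype.card_fin]
    have e2 : S.card * q ≤ N.card * n := by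
      have h1 : S.card * q = (S ×ˢ (univ : Finset (Fin q))).card := by
        rw [card_product, card_univ, Fintype.card_fin]
      have h2 : (S ×ˢ (univ : Finset (Fin q))).card =
          ∑ v ∈ N, ((S ×ˢ (univ : Finset (Fin q))).filter fun p => c p.1 p.2 = v).card := by
        refine card_eq_sum_card_fiberwise ?_
        intro p hp
        have hp' : p ∈ S ×ˢ (univ : Finset (Fin q)) := hp
        rw [mem_product] at hp'
        show c p.1 p.2 ∈ (N : Set V)
        rw [mem_coe, hN, mem_biUnion]
        exact ⟨p.1, hp'.1, mem_image_of_mem _ (mem_univ _)⟩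
      rw [h1, h2]
      refine (sum_le_card_nsmul N _ n fun v _ => ?_).trans (le_of_eq (by rw [smul_eq_mul]))
      refine le_trans ?_ (hdeg v)
      rw [← Set.ncard_coe_finset]
      refine Set.ncard_le_ncard ?_ (Set.toFinite _)
      intro p hp
      rw [mem_coe, mem_filter] at hp
      exact hp.2
    have e3 : S.card * q ≤ (N.card * C) * q := by
      calc S.card * q ≤ N.card * n := e2
        _ ≤ N.card * (C * q) := Nat.mul_le_mul_left _ hCq
        _ = (N.card * C) * q := by ring
    exact Nat.le_of_mul_le_mul_right e3 hq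
  obtain ⟨f, hf, hft⟩ := (Finset.all_card_le_biUnion_card_iff_exists_injective t).1 hall
  have hβ : ∀ l, ∃ b, c l b = (f l).1 := by
    intro l
    have h1 := hft l
    rw [ht, mem_product, mem_image] at h1
    obtain ⟨b, -, hb⟩ := h1.1
    exact ⟨b, hb⟩
  choose β hβ using hβ
  refine ⟨β, fun v => ?_⟩
  have h1 : ({l | c l (β l) = v} : Set L).ncard ≤ (Set.univ : Set (Fin C)).ncard := by
    refine Set.ncard_le_ncard_of_injOn (fun l => (f l).2) (fun l _ => Set.mem_univ _) ?_
      (Set.toFinite _)
    intro l hl l' hl' h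
    apply hf
    refine Prod.ext ?_ h
    have h1 : c l (β l) = v := hl
    have h2 : c l' (β l') = v := hl'
    rw [← hβ l, ← hβ l', h1, h2]
  rwa [Set.ncard_univ, Nat.card_eq_fintype_card, Fintype.card_fin] at h1

theorem sel : Pool.Agent.H41.CO.S_SEL := by
  intro V I _ _ _ q n u w hq _ _ hu hw
  classical
  obtain ⟨β, hβ⟩ := cap V (I × Fin q) q n hq (fun p b => u p.1 p.2 b) (by
    intro v
    refine le_trans ?_ (hu v)
    refine Set.ncard_le_ncard_of_injOn (fun p : (I × Fin q) × Fin q => (p.1.1, p.1.2, p.2)) ?_ ?_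
      (Set.toFinite _)
    · intro p hp
      exact hp
    · rintro ⟨⟨i, a⟩, b⟩ _ ⟨⟨i', a'⟩, b'⟩ _ h
      simp only [Prod.mk.injEq] at h ⊢
      tauto)
  obtain ⟨α, hα⟩ := cap V I q n hq (fun i a => w i a (β (i, a))) (by
    intro v
    refine le_trans ?_ (hw v)
    refine Set.ncard_le_ncard_of_injOn (fun p : I × Fin q => (p.1, p.2, β (p.1, p.2))) ?_ ?_
      (Set.toFinite _)
    · intro p hp
      exact hp
    · rintro ⟨i, a⟩ _ ⟨i', a'⟩ _ h
      simp only [Prod.mk.injEq] at h ⊢
      tauto)
  refine ⟨α, fun i => β (i, α i), fun v => ?_, fun v => hα v⟩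
  refine le_trans ?_ (hβ v)
  refine Set.ncard_le_ncard_of_injOn (fun i : I => (i, α i)) ?_ ?_ (Set.toFinite _)
  · intro i hi
    exact hi
  · intro i _ i' _ h
    exact (Prod.mk.inj h).1

end Pool.Agent.H43.CO
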